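import Pool.Agent.H.MP_2e5387_al.ChainC
import Pool.Agent.H.MP_2e5387_al.Down

/-!
# Knotted varieties with a variety of bimonoidal subreducts

For `m, n ≥ 1`, if the bimonoidal subreducts of the knotted variety `x ^ m ≤ x ^ n` of involutive
commutative residuated lattices form a variety, then `m = 1` or `m = n`, so that the knotted
variety is axiomatized by `x ≤ x ^ k` for some `k ≥ 1`. In all the other cases the class of
subreducts is not closed under homomorphic images.
-/

namespace Pool.Agent.Results.MP_2e5387_al.KnottedVarieties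

open Pool.Agent.H.MP_2e5387_al

universe u

/-- In all cases other than `m = 1` and `m = n` closure under homomorphic images fails. -/
theorem hFails (m n : ℕ) (hm : 1 ≤ m) (hn : 1 ≤ n) (h1 : m ≠ 1) (h2 : m ≠ n) :
    HFails.{u} m n := by
  rcases lt_or_gt_of_ne h2 with h | h
  · obtain ⟨k, rfl⟩ := Nat.exists_eq_add_of_le' (show 2 ≤ m by omega)
    exact Chain.Ch.hFails k n h
  · exact hFails_down hn h

theorem result (m n : ℕ) (hm : 1 ≤ m) (hn : 1 ≤ n) :
    (FormsVariety.{u} (fun {A} a => IsSubreduct m n a) →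
      (m = 1 ∨ m = n) ∧
      ∃ k : ℕ, 1 ≤ k ∧
        ∀ (R : Type u) [InCRL R], (∀ x : R, x ^ m ≤ x ^ n) ↔ ∀ x : R, x ≤ x ^ k) ∧
    (m ≠ 1 → m ≠ n → ∃ (A B : Type u) (a : LBAlg A) (b : LBAlg B) (f : A → B),
      IsSubreduct m n a ∧ Function.Surjective f ∧ IsHom a b f ∧ ¬ IsSubreduct m n b) := by
  refine ⟨fun hv => ?_, fun h1 h2 => hFails m n hm hn h1 h2⟩
  have key : m = 1 ∨ m = n := by
    by_contra hc
    rw [not_or] at hc
    obtain ⟨A, B, a, b, f, ha, hf, hh, hb⟩ := hFails.{u} m n hm hn hc.1 hc.2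
    exact hb (hv.1 A B a b f ha hf hh)
  refine ⟨key, ?_⟩
  rcases key with rfl | rfl
  · refine ⟨n, hn, fun R _ => ?_⟩
    simp only [pow_one]
  · refine ⟨1, le_rfl, fun R _ => ?_⟩
    simp only [pow_one, le_refl]

end Pool.Agent.Results.MP_2e5387_al.KnottedVarieties
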